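import Mathlib

/-!
# Continuous-time quantum walks on Cayley graphs of finite abelian groups: basic spectral facts
-/

set_option autoImplicit false

open Matrix Complex

namespace Pool.Agent.Lib_helper58.CayleyUM

variable {G : Type*} [AddCommGroup G] [Fintype G] [DecidableEq G]

/-- adjacency matrix of the Cayley (di)graph -/
noncomputable def adj (C : Finset G) : Matrix G G ℂ :=
  Matrix.of fun x y : G => if y - x ∈ C then (1 : ℂ) else 0

/-- eigenvalue at the character `ψ` -/
noncomputable def lam (C : Finset G) (ψ : AddChar G ℂ) : ℂ := ∑ c ∈ C, ψ c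

lemma adj_mulVec (C : Finset G) (ψ : AddChar G ℂ) :
    adj C *ᵥ (fun x => ψ x) = lam C ψ • (fun x => ψ x) := by
  funext x
  simp only [adj, lam, Matrix.mulVec, dotProduct, Matrix.of_apply, Pi.smul_apply, smul_eq_mul]
  have h1 : ∑ y, (if y - x ∈ C then (1 : ℂ) else 0) * ψ y
      = ∑ z, (if z ∈ C then (1 : ℂ) else 0) * ψ (z + x) := by
    refine (Fintype.sum_equiv (Equiv.addRight x) _ _ ?_).symm
    intro z
    simp
  rw [h1]
  simp only [ite_mul, one_mul, zero_mul]
  rw [Finset.sum_ite_mem, Finset.univ_inter, Finset.sum_mul]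
  refine Finset.sum_congr rfl fun c _ => ?_
  rw [AddChar.map_add_eq_mul]

open scoped Matrix.Norms.Operator in
set_option backward.isDefEq.respectTransparency false in
lemma exp_mulVec (M : Matrix G G ℂ) (v : G → ℂ) (μ : ℂ) (h : M *ᵥ v = μ • v) :
    (NormedSpace.exp M) *ᵥ v = (Complex.exp μ) • v := by
  have hpow : ∀ n : ℕ, (M ^ n) *ᵥ v = (μ ^ n) • v := by
    intro n
    induction n with
    | zero => simp
    | succ n ih =>
      rw [pow_succ, ← Matrix.mulVec_mulVec, h, Matrix.mulVec_smul, ih, smul_smul, pow_succ,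
        mul_comm]
  have h1 : HasSum (fun n : ℕ => ((n.factorial : ℂ)⁻¹) • M ^ n) (NormedSpace.exp M) :=
    NormedSpace.exp_series_hasSum_exp' (𝕂 := ℂ) M
  have h2 : HasSum (fun n : ℕ => ((n.factorial : ℂ)⁻¹) • μ ^ n) (NormedSpace.exp μ) :=
    NormedSpace.exp_series_hasSum_exp' (𝕂 := ℂ) μ
  rw [← Complex.exp_eq_exp_ℂ] at h2
  let f : Matrix G G ℂ →ₗ[ℂ] (G → ℂ) :=
    { toFun := fun A => A *ᵥ v
      map_add' := fun A B => Matrix.add_mulVec A B v
      map_smul' := fun c A => by simp [Matrix.smul_mulVec] }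
  have hf : Continuous f := by
    show Continuous fun A : Matrix G G ℂ => A *ᵥ v
    exact Continuous.matrix_mulVec continuous_id continuous_const
  have h3 := h1.map f hf
  have h4 : HasSum (fun n : ℕ => (((n.factorial : ℂ)⁻¹) • μ ^ n) • v) (Complex.exp μ • v) :=
    h2.smul_const v
  have h5 : (f ∘ fun n : ℕ => ((n.factorial : ℂ)⁻¹) • M ^ n)
      = fun n : ℕ => (((n.factorial : ℂ)⁻¹) • μ ^ n) • v := by
    funext n
    show (((n.factorial : ℂ)⁻¹) • M ^ n) *ᵥ v = _
    rw [Matrix.smul_mulVec, hpow, smul_smul, smul_eq_mul]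
  rw [h5] at h3
  exact h3.unique h4

/-- the walk matrix -/
noncomputable def walk (C : Finset G) (s : ℂ) : Matrix G G ℂ := NormedSpace.exp (s • adj C)

lemma walk_mulVec (C : Finset G) (s : ℂ) (ψ : AddChar G ℂ) :
    walk C s *ᵥ (fun x => ψ x) = Complex.exp (s * lam C ψ) • (fun x => ψ x) := by
  apply exp_mulVec
  rw [Matrix.smul_mulVec, adj_mulVec, smul_smul]

/-- Fourier transform of the first row -/
lemma walk_fourier (C : Finset G) (s : ℂ) (ψ : AddChar G ℂ) (a : G) :
    ∑ b, walk C s a b * ψ b = Complex.exp (s * lam C ψ) * ψ a := by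
  have := congrFun (walk_mulVec C s ψ) a
  simpa [Matrix.mulVec, dotProduct] using this

/-- inversion -/
lemma walk_apply (C : Finset G) (s : ℂ) (a b : G) :
    (Fintype.card G : ℂ) * walk C s a b
      = ∑ ψ : AddChar G ℂ, Complex.exp (s * lam C ψ) * ψ (a - b) := by
  have h1 : ∀ ψ : AddChar G ℂ, Complex.exp (s * lam C ψ) * ψ (a - b)
      = ∑ c, walk C s a c * ψ (c - b) := by
    intro ψ
    have h := walk_fourier C s ψ a
    rw [sub_eq_add_neg, AddChar.map_add_eq_mul, ← mul_assoc, ← h, Finset.sum_mul]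
    refine Finset.sum_congr rfl fun c _ => ?_
    rw [sub_eq_add_neg, AddChar.map_add_eq_mul, mul_assoc]
  rw [Finset.sum_congr rfl (fun ψ _ => h1 ψ), Finset.sum_comm]
  have h2 : ∀ c : G, ∑ ψ : AddChar G ℂ, walk C s a c * ψ (c - b)
      = if c = b then (Fintype.card G : ℂ) * walk C s a c else 0 := by
    intro c
    rw [← Finset.mul_sum, AddChar.sum_apply_eq_ite]
    by_cases hcb : c = b
    · simp [hcb, mul_comm]
    · simp [hcb, sub_eq_zero]
  rw [Finset.sum_congr rfl (fun c _ => h2 c)]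
  simp

end Pool.Agent.Lib_helper58.CayleyUM
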