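import Mathlib

/-!
# Sums of roots of unity of modulus `√n` when all primes dividing `n` are self-conjugate
-/

set_option autoImplicit false

open NumberField Polynomial

namespace Pool.Agent.Lib_helper58.SelfConj

/-- every prime divisor `p` of `n` is self-conjugate modulo `N` -/
def SelfConjAt (N n : ℕ) : Prop :=
  ∀ p : ℕ, p.Prime → p ∣ n → ∃ j s m : ℕ, N = p ^ s * m ∧ m ∣ p ^ j + 1

section ring

variable {R : Type*} [CommRing R] [IsDomain R]

lemma eq_one_of_pow_char_pow {p s : ℕ} [Fact p.Prime] [CharP R p] {y : R}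
    (h : y ^ p ^ s = 1) : y = 1 := by
  have h1 : (y - 1) ^ p ^ s = 0 := by
    rw [sub_pow_char_pow, h]; simp
  exact sub_eq_zero.1 (pow_eq_zero_iff (pow_ne_zero _ (Fact.out : p.Prime).ne_zero) |>.1 h1)

end ring

section dedekind

variable {R : Type*} [CommRing R] [IsDedekindDomain R]

omit [IsDedekindDomain R] in
lemma exists_prime_mem (P : Ideal R) [hP : P.IsPrime] (n : ℕ) (hn : 0 < n) (hmem : (n : R) ∈ P) :
    ∃ p : ℕ, p.Prime ∧ p ∣ n ∧ (p : R) ∈ P := by
  induction n using Nat.strong_induction_on with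
  | _ n ih =>
    by_cases h1 : n = 1
    · subst h1
      exact absurd ((Ideal.eq_top_iff_one P).2 (by simpa using hmem)) hP.ne_top
    · have hp := Nat.minFac_prime h1
      have hmul : n.minFac * (n / n.minFac) = n := Nat.mul_div_cancel' (Nat.minFac_dvd n)
      rw [← hmul] at hmem
      push_cast at hmem
      rcases hP.mem_or_mem hmem with h | h
      · exact ⟨_, hp, Nat.minFac_dvd n, h⟩
      · obtain ⟨p, hp1, hp2, hp3⟩ := ih (n / n.minFac) (Nat.div_lt_self hn hp.one_lt)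
          (Nat.div_pos (Nat.minFac_le hn) hp.pos) (by exact_mod_cast h)
        exact ⟨p, hp1, hp2.trans (Nat.div_dvd_of_dvd (Nat.minFac_dvd n)), hp3⟩

/-- if `τ` maps every prime above `n` to itself then it fixes every ideal dividing `(n)` -/
lemma map_eq_of_dvd (τ : R ≃+* R) (n : ℕ) (hn : 0 < n) (hn0 : (n : R) ≠ 0)
    (hτ : ∀ P : Ideal R, P.IsPrime → ∀ p : ℕ, p.Prime → p ∣ n → (p : R) ∈ P → ∀ x ∈ P, τ x ∈ P)
    (I : Ideal R) (hI : I ∣ Ideal.span {(n : R)}) : I.map (τ : R →+* R) = I := by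
  induction I using UniqueFactorizationMonoid.induction_on_prime with
  | h₁ =>
    exfalso
    rw [zero_dvd_iff] at hI
    apply hn0
    have : (n : R) ∈ Ideal.span {(n : R)} := Ideal.mem_span_singleton_self _
    rw [hI] at this
    simpa using this
  | h₂ J hJ =>
    rw [Ideal.isUnit_iff.1 hJ]
    exact Ideal.map_top _
  | h₃ J P hJ0 hP ih =>
    have hPd : P ∣ Ideal.span {(n : R)} := (Dvd.intro _ rfl).trans hI
    have hJd : J ∣ Ideal.span {(n : R)} := (Dvd.intro_left _ rfl).trans hI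
    rw [Ideal.map_mul, ih hJd]
    congr 1
    have hPp : P.IsPrime := Ideal.isPrime_of_prime hP
    have hnP : (n : R) ∈ P := by
      have := Ideal.le_of_dvd hPd
      exact this (Ideal.mem_span_singleton_self _)
    obtain ⟨p, hp1, hp2, hp3⟩ := exists_prime_mem P n hn hnP
    have hle : P ≤ P.comap (τ : R →+* R) := fun x hx => hτ P hPp p hp1 hp2 hp3 x hx
    have hmax : P.IsMaximal := hPp.isMaximal hP.ne_zero
    have hne : P.comap (τ : R →+* R) ≠ ⊤ := Ideal.comap_ne_top _ hPp.ne_top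
    have heq := hmax.eq_of_le hne hle
    conv_lhs => rw [heq]
    exact Ideal.map_comap_of_surjective _ τ.surjective P

end dedekind

section cyclo

variable {N : ℕ} [NeZero N]

lemma agree_of_gen {K : Type*} [Field K] [NumberField K] [IsCyclotomicExtension {N} ℚ K]
    {ζ : K} (hζ : IsPrimitiveRoot ζ N) {S : Type*} [CommRing S] (f g : 𝓞 K →+* S)
    (h : f hζ.toInteger = g hζ.toInteger) (x : 𝓞 K) : f x = g x := by
  have h1 : f.toIntAlgHom = g.toIntAlgHom := by
    apply hζ.integralPowerBasis.algHom_ext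
    simpa using h
  exact DFunLike.congr_fun h1 x

/-- a sum of `N`-th roots of unity of modulus `√n`, with `n` composed of
self-conjugate primes modulo `N`, is `√n` times a root of unity. -/
theorem pow_eq_of_selfConj (n : ℕ) (hn : 0 < n) (hsc : SelfConjAt N n)
    {ι : Type*} (S : Finset ι) (w : ι → ℂ) (hw : ∀ i ∈ S, w i ^ N = 1)
    (hα : ‖∑ i ∈ S, w i‖ ^ 2 = n) :
    ∃ M : ℕ, 0 < M ∧ (∑ i ∈ S, w i) ^ (2 * M) = (n : ℂ) ^ M := by
  classical
  have hNpos : 0 < N := Nat.pos_of_ne_zero (NeZero.ne N)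
  let K := CyclotomicField N ℚ
  have hcyc : IsCyclotomicExtension {N} ℚ K := CyclotomicField.isCyclotomicExtension N ℚ
  let ζ : K := IsCyclotomicExtension.zeta N ℚ K
  have hζ : IsPrimitiveRoot ζ N := IsCyclotomicExtension.zeta_spec N ℚ K
  let η : 𝓞 K := hζ.toInteger
  have hη : IsPrimitiveRoot η N := hζ.toInteger_isPrimitiveRoot
  have hηζ : ((η : 𝓞 K) : K) = ζ := rfl
  obtain ⟨φ₀⟩ : Nonempty (K →+* ℂ) := inferInstance
  -- exponents
  have hφζ : IsPrimitiveRoot (φ₀ ζ) N := hζ.map_of_injective φ₀.injective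
  have hexp : ∀ i : ι, ∃ e : ℕ, i ∈ S → (φ₀ ζ) ^ e = w i := by
    intro i
    by_cases hi : i ∈ S
    · obtain ⟨e, _, he⟩ := hφζ.eq_pow_of_pow_eq_one (hw i hi)
      exact ⟨e, fun _ => he⟩
    · exact ⟨0, fun h => absurd h hi⟩
  choose e he using hexp
  let a : 𝓞 K := ∑ i ∈ S, η ^ e i
  let b : 𝓞 K := ∑ i ∈ S, (η ^ (N - 1)) ^ e i
  have hpowN : ∀ φ : K →+* ℂ, (φ ζ) ^ N = 1 := by
    intro φ; rw [← map_pow, hζ.pow_eq_one, map_one]
  have hnorm : ∀ φ : K →+* ℂ, ‖φ ζ‖ = 1 := fun φ => Complex.norm_eq_one_of_pow_eq_one (hpowN φ)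
    (NeZero.ne N)
  have hinv : ∀ φ : K →+* ℂ, (φ ζ) ^ (N - 1) = (starRingEnd ℂ) (φ ζ) := by
    intro φ
    have h1 : (φ ζ) ^ (N - 1) * φ ζ = 1 := by
      rw [← pow_succ, Nat.sub_add_cancel hNpos]; exact hpowN φ
    have h2 : (starRingEnd ℂ) (φ ζ) * φ ζ = 1 := by
      rw [mul_comm, Complex.mul_conj, Complex.normSq_eq_norm_sq, hnorm]; simp
    have h3 : φ ζ ≠ 0 := by
      intro h; have := hnorm φ; rw [h] at this; simp at this
    exact mul_right_cancel₀ h3 (h1.trans h2.symm)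
  have hφa : ∀ φ : K →+* ℂ, φ (a : K) = ∑ i ∈ S, (φ ζ) ^ e i := by
    intro φ
    have : (a : K) = ∑ i ∈ S, ζ ^ e i := by
      simp [a, η, map_sum]
    rw [this, map_sum]; simp
  have hφb : ∀ φ : K →+* ℂ, φ (b : K) = (starRingEnd ℂ) (φ (a : K)) := by
    intro φ
    have : (b : K) = ∑ i ∈ S, (ζ ^ (N - 1)) ^ e i := by
      simp [b, η, map_sum]
    rw [this, hφa, map_sum, map_sum]
    refine Finset.sum_congr rfl fun i _ => ?_
    rw [map_pow, map_pow, hinv, map_pow]
  have hφ₀a : φ₀ (a : K) = ∑ i ∈ S, w i := by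
    rw [hφa]; exact Finset.sum_congr rfl fun i hi => he i hi
  have hab : a * b = (n : 𝓞 K) := by
    apply RingOfIntegers.coe_injective
    apply φ₀.injective
    push_cast
    rw [map_mul, hφb, Complex.mul_conj, Complex.normSq_eq_norm_sq, hφ₀a, hα]
    simp
  -- complex conjugation
  have hirr : Irreducible (cyclotomic N ℚ) := cyclotomic.irreducible_rat hNpos
  have hμ : IsPrimitiveRoot (ζ ^ (N - 1)) N := by
    have h1 : ζ ^ (N - 1) = ζ⁻¹ := by
      apply eq_inv_of_mul_eq_one_left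
      rw [← pow_succ,
        Nat.sub_add_cancel hNpos, hζ.pow_eq_one]
    rw [h1]; exact hζ.inv
  let τK : K ≃ₐ[ℚ] K := IsCyclotomicExtension.fromZetaAut hμ hirr
  have hτK : τK ζ = ζ ^ (N - 1) := IsCyclotomicExtension.fromZetaAut_spec hμ hirr
  let τ : 𝓞 K ≃+* 𝓞 K := RingOfIntegers.mapRingEquiv τK.toRingEquiv
  have hτη : τ η = η ^ (N - 1) := by
    apply RingOfIntegers.coe_injective
    show τK ζ = ((η ^ (N - 1) : 𝓞 K) : K)
    rw [hτK]; simp [η]
  have hτa : τ a = b := by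
    simp only [a, b, map_sum, map_pow, hτη]
  -- primes are fixed
  have hfix : ∀ P : Ideal (𝓞 K), P.IsPrime → ∀ p : ℕ, p.Prime → p ∣ n → (p : 𝓞 K) ∈ P →
      ∀ x ∈ P, τ x ∈ P := by
    intro P hP p hp hpn hpP x hx
    obtain ⟨j, s, m, hNm, hmj⟩ := hsc p hp hpn
    have : Fact p.Prime := ⟨hp⟩
    have : CharP (𝓞 K ⧸ P) p := by
      have h0 : ((p : ℕ) : 𝓞 K ⧸ P) = 0 := by
        rw [← map_natCast (Ideal.Quotient.mk P)]
        exact Ideal.Quotient.eq_zero_iff_mem.2 hpP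
      exact (CharP.charP_iff_prime_eq_zero hp).2 h0
    let f : 𝓞 K →+* 𝓞 K ⧸ P := (Ideal.Quotient.mk P).comp (τ : 𝓞 K →+* 𝓞 K)
    let g : 𝓞 K →+* 𝓞 K ⧸ P := (iterateFrobenius (𝓞 K ⧸ P) p j).comp (Ideal.Quotient.mk P)
    have hfg : f η = g η := by
      show Ideal.Quotient.mk P (τ η) = iterateFrobenius (𝓞 K ⧸ P) p j (Ideal.Quotient.mk P η)
      rw [hτη, iterateFrobenius_def, map_pow]
      set y := Ideal.Quotient.mk P η with hy
      have hyN : y ^ N = 1 := by rw [hy, ← map_pow, hη.pow_eq_one, map_one]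
      have h1 : y ^ (p ^ j + 1) = 1 := by
        apply eq_one_of_pow_char_pow (p := p) (s := s)
        obtain ⟨c, hc⟩ := hmj
        rw [← pow_mul, hc, show m * c * p ^ s = N * c by rw [hNm]; ring, pow_mul, hyN, one_pow]
      have h2 : y ^ (N - 1) * y = 1 := by
        rw [← pow_succ, Nat.sub_add_cancel hNpos, hyN]
      have h3 : y ^ (p ^ j) * y = 1 := by rw [← pow_succ, h1]
      have hy0 : y ≠ 0 := by
        intro h; rw [h, mul_zero] at h2; exact zero_ne_one h2
      exact mul_right_cancel₀ hy0 (h2.trans h3.symm)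
    have hall := agree_of_gen hζ f g hfg x
    have hgx : g x = 0 := by
      show iterateFrobenius (𝓞 K ⧸ P) p j (Ideal.Quotient.mk P x) = 0
      rw [Ideal.Quotient.eq_zero_iff_mem.2 hx, map_zero]
    rw [hgx] at hall
    exact Ideal.Quotient.eq_zero_iff_mem.1 hall
  have hn0 : (n : 𝓞 K) ≠ 0 := by exact_mod_cast hn.ne'
  have hmap := map_eq_of_dvd τ n hn hn0 hfix (Ideal.span {a})
    (by rw [← hab, ← Ideal.span_singleton_mul_span_singleton]; exact Dvd.intro _ rfl)
  rw [Ideal.map_span, Set.image_singleton] at hmap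
  have hassoc : Associated b a := by
    rw [← Ideal.span_singleton_eq_span_singleton]
    have : (τ : 𝓞 K →+* 𝓞 K) a = b := hτa
    rw [this] at hmap
    exact hmap
  obtain ⟨u, hu⟩ := hassoc.symm
  -- `a * u = b`, `a ^ 2 * u = n`
  have ha2 : a ^ 2 * (u : 𝓞 K) = n := by
    rw [← hab, ← hu]; ring
  have hunorm : ∀ φ : K →+* ℂ, ‖φ ((u : 𝓞 K) : K)‖ = 1 := by
    intro φ
    have h1 : φ (a : K) * φ (((u : 𝓞 K)) : K) = φ (b : K) := by
      rw [← map_mul, ← hu]; push_cast; rfl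
    rw [hφb] at h1
    have h2 : ‖φ (a : K)‖ * ‖φ (((u : 𝓞 K)) : K)‖ = ‖φ (a : K)‖ := by
      rw [← norm_mul, h1, RCLike.norm_conj]
    have h3 : φ (a : K) ≠ 0 := by
      intro h0
      have h4 : (a : K) = 0 := φ.injective (by rw [h0, map_zero])
      have h5 : a = 0 := by
        apply RingOfIntegers.coe_injective
        show (a : K) = ((0 : 𝓞 K) : K)
        rw [h4]; simp
      rw [h5] at hab
      exact hn0 (by rw [← hab, zero_mul])
    have h4 : ‖φ (a : K)‖ ≠ 0 := norm_ne_zero_iff.2 h3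
    exact mul_left_cancel₀ h4 (by rw [h2, mul_one])
  obtain ⟨M, hM, huM⟩ := NumberField.Embeddings.pow_eq_one_of_norm_eq_one K ℂ
    (x := ((u : 𝓞 K) : K)) (RingOfIntegers.isIntegral_coe _) hunorm
  refine ⟨M, hM, ?_⟩
  rw [← hφ₀a]
  have h1 : ((a : K) ^ 2 * ((u : 𝓞 K) : K)) ^ M = (n : K) ^ M := by
    congr 1
    have := congrArg (fun z : 𝓞 K => (z : K)) ha2
    simpa using this
  rw [mul_pow, huM, mul_one, ← pow_mul] at h1
  rw [← map_pow, h1, map_pow, map_natCast]

end cyclo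

end Pool.Agent.Lib_helper58.SelfConj
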