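import Mathlib
import Pool.Agent.Lib_helper58.CayleyUM
import Pool.Agent.Lib_helper58.SelfConj

/-!
# Uniform mixing on Cayley graphs of finite abelian groups: consequences of flatness
-/

set_option autoImplicit false

open Matrix Complex

namespace Pool.Agent.Lib_helper58.CayleyUM

open Pool.Agent.Lib_helper58.SelfConj

variable {G : Type*} [AddCommGroup G] [Fintype G] [DecidableEq G]

lemma norm_char (ψ : AddChar G ℂ) (b : G) : ‖ψ b‖ = 1 := AddChar.norm_apply ψ b

lemma conj_char (ψ : AddChar G ℂ) (b : G) : (starRingEnd ℂ) (ψ b) = ψ (-b) := by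
  rw [AddChar.map_neg_eq_conj]

omit [DecidableEq G] in
lemma char_pow_card (ψ : AddChar G ℂ) (b : G) : ψ b ^ Fintype.card G = 1 := by
  rw [← AddChar.map_nsmul_eq_pow, card_nsmul_eq_zero, AddChar.map_zero_eq_one]

lemma lam_conj (C : Finset G) (hC : ∀ c ∈ C, -c ∈ C) (ψ : AddChar G ℂ) :
    (starRingEnd ℂ) (lam C ψ) = lam C ψ := by
  unfold lam
  rw [map_sum]
  refine Finset.sum_nbij' (fun c => -c) (fun c => -c) hC hC ?_ ?_ ?_
  · intro c _; simp
  · intro c _; simp
  · intro c _; rw [conj_char]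

lemma lam_re (C : Finset G) (hC : ∀ c ∈ C, -c ∈ C) (ψ : AddChar G ℂ) :
    (((lam C ψ).re : ℝ) : ℂ) = lam C ψ := by
  rw [← Complex.conj_eq_iff_re]; exact lam_conj C hC ψ

lemma lam_zero (C : Finset G) : lam C (0 : AddChar G ℂ) = C.card := by
  simp [lam]

lemma sum_lam (C : Finset G) (h0 : (0 : G) ∉ C) : ∑ ψ : AddChar G ℂ, lam C ψ = 0 := by
  unfold lam
  rw [Finset.sum_comm]
  apply Finset.sum_eq_zero
  intro c hc
  rw [AddChar.sum_apply_eq_ite, if_neg]
  rintro rfl; exact h0 hc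

/-- phase at the character `ψ` -/
noncomputable def ph (C : Finset G) (t : ℝ) (ψ : AddChar G ℂ) : ℂ :=
  Complex.exp (Complex.I * (t : ℂ) * lam C ψ)

lemma norm_ph (C : Finset G) (hC : ∀ c ∈ C, -c ∈ C) (t : ℝ) (ψ : AddChar G ℂ) :
    ‖ph C t ψ‖ = 1 := by
  unfold ph
  rw [← lam_re C hC, show Complex.I * (t : ℂ) * (((lam C ψ).re : ℝ) : ℂ)
    = ((t * (lam C ψ).re : ℝ) : ℂ) * Complex.I by push_cast; ring]
  exact Complex.norm_exp_ofReal_mul_I _

/-- first row of the walk -/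
noncomputable def row (C : Finset G) (t : ℝ) (b : G) : ℂ := walk C (Complex.I * (t : ℂ)) 0 b

lemma ph_eq (C : Finset G) (t : ℝ) (ψ : AddChar G ℂ) :
    ph C t ψ = ∑ b, row C t b * ψ b := by
  unfold ph row
  rw [walk_fourier]; simp

lemma row_eq (C : Finset G) (t : ℝ) (b : G) :
    (Fintype.card G : ℂ) * row C t b = ∑ ψ : AddChar G ℂ, ph C t ψ * ψ (-b) := by
  unfold row ph
  rw [walk_apply]; simp

lemma rat_of_exp {t : ℝ} {m : ℕ} (hm : 0 < m) (h : Complex.exp (Complex.I * (t : ℂ) * m) = 1) :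
    ∃ r : ℚ, t = (r : ℝ) * Real.pi := by
  rw [Complex.exp_eq_one_iff] at h
  obtain ⟨j, hj⟩ := h
  refine ⟨(2 * j : ℚ) / m, ?_⟩
  have h1 : (t : ℂ) * m = j * (2 * Real.pi) := by
    have h2 : Complex.I * ((t : ℂ) * m) = Complex.I * (j * (2 * Real.pi)) := by
      rw [← mul_assoc, hj]; ring
    exact mul_left_cancel₀ Complex.I_ne_zero h2
  have h3 : t * m = j * (2 * Real.pi) := by exact_mod_cast h1
  have hm' : (m : ℝ) ≠ 0 := by exact_mod_cast hm.ne'
  push_cast
  field_simp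
  linarith

/-- flatness of the first row -/
def Flat (C : Finset G) (t : ℝ) : Prop := ∀ b, ‖row C t b‖ ^ 2 = 1 / (Fintype.card G : ℝ)

lemma card_pos : (0 : ℝ) < Fintype.card G := by
  have : 0 < Fintype.card G := Fintype.card_pos
  exact_mod_cast this

lemma row_ne_zero {C : Finset G} {t : ℝ} (h : Flat C t) (b : G) : row C t b ≠ 0 := by
  intro h0
  have h1 := h b
  rw [h0] at h1
  have := card_pos (G := G)
  simp at h1
  exact this.ne h1

/-- orthogonality relation equivalent to flatness -/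
lemma autocorr {C : Finset G} {t : ℝ} (h : Flat C t) (η : AddChar G ℂ) (hη : η ≠ 0) :
    ∑ ψ : AddChar G ℂ, ph C t ψ * (starRingEnd ℂ) (ph C t (ψ + η)) = 0 := by
  have h1 : ∀ ψ : AddChar G ℂ, ph C t ψ * (starRingEnd ℂ) (ph C t (ψ + η))
      = ∑ b, (starRingEnd ℂ) (row C t b) * η (-b) * (ph C t ψ * ψ (-b)) := by
    intro ψ
    rw [ph_eq C t (ψ + η), map_sum, Finset.mul_sum]
    refine Finset.sum_congr rfl fun b _ => ?_
    rw [map_mul, conj_char, AddChar.add_apply]
    ring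
  rw [Finset.sum_congr rfl (fun ψ _ => h1 ψ), Finset.sum_comm]
  have h2 : ∀ b : G, ∑ ψ : AddChar G ℂ,
      (starRingEnd ℂ) (row C t b) * η (-b) * (ph C t ψ * ψ (-b)) = η (-b) := by
    intro b
    rw [← Finset.mul_sum, ← row_eq]
    have h3 : (starRingEnd ℂ) (row C t b) * row C t b = ((1 / (Fintype.card G : ℝ) : ℝ) : ℂ) := by
      rw [mul_comm, Complex.mul_conj, Complex.normSq_eq_norm_sq, h b]
    have hn : (Fintype.card G : ℂ) ≠ 0 := by
      have := card_pos (G := G)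
      exact_mod_cast this.ne'
    calc (starRingEnd ℂ) (row C t b) * η (-b) * ((Fintype.card G : ℂ) * row C t b)
        = ((starRingEnd ℂ) (row C t b) * row C t b) * (Fintype.card G : ℂ) * η (-b) := by ring
      _ = η (-b) := by
          rw [h3]; push_cast
          field_simp
  rw [Finset.sum_congr rfl (fun b _ => h2 b)]
  have h4 : ∑ b, η (-b) = ∑ b, η b :=
    Fintype.sum_equiv (Equiv.neg G) _ _ (fun b => by simp)
  rw [h4]
  exact AddChar.sum_eq_zero_iff_ne_zero.2 hη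

/-- **Part (B)**: Butson-type mixing with self-conjugate primes. -/
theorem partB {C : Finset G} (h0 : (0 : G) ∉ C) (hC : ∀ c ∈ C, -c ∈ C) (hne : C.Nonempty)
    {t : ℝ} (h : Flat C t) (N : ℕ) (hN : 0 < N) (hch : ∀ (ψ : AddChar G ℂ) (b : G), ψ b ^ N = 1)
    (hsc : SelfConjAt N (Fintype.card G))
    (hB : ∀ b, row C t b ^ N = row C t 0 ^ N) : ∃ r : ℚ, t = (r : ℝ) * Real.pi := by
  classical
  have : NeZero N := ⟨hN.ne'⟩
  have hu0 := row_ne_zero h 0
  have hn : (Fintype.card G : ℂ) ≠ 0 := by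
    have := card_pos (G := G)
    exact_mod_cast this.ne'
  have key : ∀ ψ : AddChar G ℂ, ∃ M : ℕ, 0 < M ∧
      (ph C t ψ) ^ (2 * M) = (row C t 0 ^ 2 * Fintype.card G) ^ M := by
    intro ψ
    have hsum : ∑ b, row C t b / row C t 0 * ψ b = ph C t ψ / row C t 0 := by
      rw [ph_eq, Finset.sum_div]
      exact Finset.sum_congr rfl fun b _ => by ring
    have hw : ∀ b ∈ (Finset.univ : Finset G), (row C t b / row C t 0 * ψ b) ^ N = 1 := by
      intro b _
      rw [mul_pow, hch, mul_one, div_pow, hB b, div_self (pow_ne_zero _ hu0)]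
    have hnorm : ‖∑ b, row C t b / row C t 0 * ψ b‖ ^ 2 = (Fintype.card G : ℕ) := by
      rw [hsum, norm_div, div_pow, norm_ph C hC, h 0]
      simp
    obtain ⟨M, hM, hM2⟩ := pow_eq_of_selfConj (Fintype.card G) Fintype.card_pos hsc
      Finset.univ (fun b => row C t b / row C t 0 * ψ b) hw hnorm
    refine ⟨M, hM, ?_⟩
    rw [hsum, div_pow, div_eq_iff (pow_ne_zero _ hu0)] at hM2
    rw [hM2, mul_pow, ← pow_mul]; ring
  choose M hM hM2 using key
  set P : ℕ := ∏ ψ : AddChar G ℂ, M ψ with hP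
  have hPpos : 0 < P := Finset.prod_pos fun ψ _ => hM ψ
  have key2 : ∀ ψ : AddChar G ℂ, (ph C t ψ) ^ (2 * P) = (row C t 0 ^ 2 * Fintype.card G) ^ P := by
    intro ψ
    obtain ⟨c, hc⟩ := Finset.dvd_prod_of_mem M (Finset.mem_univ ψ)
    rw [← hP] at hc
    rw [hc, ← mul_assoc, pow_mul, hM2 ψ, ← pow_mul]
  set c := (row C t 0 ^ 2 * (Fintype.card G : ℂ)) ^ P with hc
  have hprod : ∏ ψ : AddChar G ℂ, (ph C t ψ) ^ (2 * P) = 1 := by
    have h5 : ∀ ψ : AddChar G ℂ, (ph C t ψ) ^ (2 * P)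
        = Complex.exp (Complex.I * (t : ℂ) * (2 * P : ℕ) * lam C ψ) := by
      intro ψ
      unfold ph
      rw [← Complex.exp_nat_mul]; congr 1; ring
    rw [Finset.prod_congr rfl (fun ψ _ => h5 ψ), ← Complex.exp_sum, ← Finset.mul_sum,
      sum_lam C h0, mul_zero, Complex.exp_zero]
  have hprod2 : c ^ Fintype.card (AddChar G ℂ) = 1 := by
    rw [← hprod, Finset.prod_congr rfl (fun ψ _ => key2 ψ), Finset.prod_const, Finset.card_univ]
  have h6 : ph C t 0 ^ (2 * P) = c := key2 0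
  have h7 : (ph C t 0 ^ (2 * P)) ^ Fintype.card (AddChar G ℂ) = 1 := by rw [h6, hprod2]
  have hcardpos : 0 < Fintype.card (AddChar G ℂ) := Fintype.card_pos
  have hCpos : 0 < C.card := Finset.card_pos.2 hne
  apply rat_of_exp (m := C.card * (2 * P) * Fintype.card (AddChar G ℂ)) (by positivity)
  rw [← h7]
  unfold ph
  rw [lam_zero, ← Complex.exp_nat_mul, ← Complex.exp_nat_mul]
  congr 1
  push_cast
  ring

/-- **Part (C)**: `√n U` has root of unity entries, self-conjugate primes. -/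
theorem partC {C : Finset G} (hC : ∀ c ∈ C, -c ∈ C) (hne : C.Nonempty)
    {t : ℝ} (N : ℕ) (hN : 0 < N)
    (hsc : SelfConjAt N (Fintype.card G))
    (hB : ∀ b, ((Real.sqrt (Fintype.card G) : ℂ) * row C t b) ^ N = 1) :
    ∃ r : ℚ, t = (r : ℝ) * Real.pi := by
  classical
  have : NeZero N := ⟨hN.ne'⟩
  have hsum : ∑ b, (Real.sqrt (Fintype.card G) : ℂ) * row C t b
      = (Real.sqrt (Fintype.card G) : ℂ) * ph C t 0 := by
    rw [ph_eq, Finset.mul_sum]; simp
  have hnorm : ‖∑ b, (Real.sqrt (Fintype.card G) : ℂ) * row C t b‖ ^ 2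
      = (Fintype.card G : ℕ) := by
    rw [hsum, norm_mul, norm_ph C hC, mul_one]
    simp [Real.sq_sqrt]
  obtain ⟨M, hM, hM2⟩ := pow_eq_of_selfConj (Fintype.card G) Fintype.card_pos hsc
    Finset.univ (fun b => (Real.sqrt (Fintype.card G) : ℂ) * row C t b) (fun b _ => hB b) hnorm
  have hsq : ((Real.sqrt (Fintype.card G) : ℝ) : ℂ) ^ 2 = Fintype.card G := by
    rw [← Complex.ofReal_pow, Real.sq_sqrt (by positivity)]; simp
  have hn : (Fintype.card G : ℂ) ≠ 0 := by
    have := card_pos (G := G)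
    exact_mod_cast this.ne'
  rw [hsum, mul_pow, pow_mul, hsq] at hM2
  have h1 : ph C t 0 ^ (2 * M) = 1 := by
    have hnz : (Fintype.card G : ℂ) ^ M ≠ 0 := pow_ne_zero _ hn
    exact mul_left_cancel₀ hnz (by rw [hM2, mul_one])
  have hCpos : 0 < C.card := Finset.card_pos.2 hne
  apply rat_of_exp (m := C.card * (2 * M)) (by positivity)
  rw [← h1]
  unfold ph
  rw [lam_zero, ← Complex.exp_nat_mul]
  congr 1
  push_cast
  ring

end Pool.Agent.Lib_helper58.CayleyUM
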