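import Mathlib
import Pool.Agent.Lib_helper58.CayleyUM2

/-!
# Bipartite Cayley graphs: the entries of the walk are real or purely imaginary
-/

set_option autoImplicit false

open Matrix Complex

namespace Pool.Agent.Lib_helper58.CayleyUM

variable {G : Type*} [AddCommGroup G] [Fintype G] [DecidableEq G]

lemma adj_symm (C : Finset G) (hC : ∀ c ∈ C, -c ∈ C) : (adj C)ᵀ = adj C := by
  ext a b
  simp only [adj, Matrix.transpose_apply, Matrix.of_apply]
  have : a - b ∈ C ↔ b - a ∈ C := by
    constructor
    · intro h; have := hC _ h; simpa using this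
    · intro h; have := hC _ h; simpa using this
  simp [this]

lemma adj_conjTranspose (C : Finset G) (hC : ∀ c ∈ C, -c ∈ C) : (adj C)ᴴ = adj C := by
  have h1 : (adj C)ᴴ = (adj C)ᵀ := by
    ext a b
    simp only [adj, Matrix.conjTranspose_apply, Matrix.transpose_apply, Matrix.of_apply]
    split_ifs <;> simp
  rw [h1, adj_symm C hC]

lemma walk_symm (C : Finset G) (hC : ∀ c ∈ C, -c ∈ C) (s : ℂ) : (walk C s)ᵀ = walk C s := by
  unfold walk
  rw [← Matrix.exp_transpose, Matrix.transpose_smul, adj_symm C hC]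

/-- complex conjugate of an entry -/
lemma conj_walk (C : Finset G) (hC : ∀ c ∈ C, -c ∈ C) (s : ℂ) (a b : G) :
    (starRingEnd ℂ) (walk C s a b) = walk C ((starRingEnd ℂ) s) a b := by
  have h1 : (walk C s)ᴴ = walk C ((starRingEnd ℂ) s) := by
    unfold walk
    rw [← Matrix.exp_conjTranspose, Matrix.conjTranspose_smul, adj_conjTranspose C hC]
    rfl
  have h2 : (starRingEnd ℂ) (walk C s a b) = (walk C s)ᴴ b a := by
    simp [Matrix.conjTranspose_apply]
  rw [h2, h1]
  have := congrFun (congrFun (walk_symm C hC ((starRingEnd ℂ) s)) a) b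
  simpa [Matrix.transpose_apply] using this

/-- conjugating by a two-colouring reverses time -/
lemma walk_neg_of_coloring (C : Finset G) (f : G → Bool) (hf : ∀ a b : G, b - a ∈ C → f a ≠ f b)
    (s : ℂ) (a b : G) :
    walk C (-s) a b = (if f a then 1 else -1) * walk C s a b * (if f b then 1 else -1) := by
  set d : G → ℂ := fun a => if f a then 1 else -1 with hd
  have hd2 : ∀ a, d a * d a = 1 := by intro a; simp only [hd]; split_ifs <;> simp
  set D : Matrix G G ℂ := Matrix.diagonal d with hD
  have hDD : D * D = 1 := by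
    rw [hD, Matrix.diagonal_mul_diagonal]
    simp only [hd2]
    exact Matrix.diagonal_one
  let U : (Matrix G G ℂ)ˣ := ⟨D, D, hDD, hDD⟩
  have h1 : D * adj C * D = - adj C := by
    ext a b
    rw [hD, Matrix.mul_diagonal, Matrix.diagonal_mul]
    simp only [adj, Matrix.of_apply, Matrix.neg_apply]
    split_ifs with hab
    · have := hf a b hab
      simp only [hd]
      cases hfa : f a <;> cases hfb : f b <;> simp_all
    · simp
  have h2 := Matrix.exp_units_conj U (s • adj C)
  have h3 : (U : Matrix G G ℂ) * (s • adj C) * ((U⁻¹ : (Matrix G G ℂ)ˣ) : Matrix G G ℂ)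
      = (-s) • adj C := by
    show D * (s • adj C) * D = (-s) • adj C
    rw [Matrix.mul_smul, Matrix.smul_mul, h1, smul_neg, neg_smul]
  rw [h3] at h2
  have h4 : walk C (-s) = D * walk C s * D := h2
  rw [h4, hD, Matrix.mul_diagonal, Matrix.diagonal_mul]

/-- in the bipartite case the scaled entries are fourth roots of unity -/
lemma bip_pow_four {C : Finset G} (hC : ∀ c ∈ C, -c ∈ C) (f : G → Bool)
    (hf : ∀ a b : G, b - a ∈ C → f a ≠ f b) {t : ℝ} (h : Flat C t) (b : G) :
    ((Real.sqrt (Fintype.card G) : ℂ) * row C t b) ^ 4 = 1 := by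
  set w := (Real.sqrt (Fintype.card G) : ℂ) * row C t b with hw
  have hconj : (starRingEnd ℂ) (row C t b) = row C t b ∨
      (starRingEnd ℂ) (row C t b) = - row C t b := by
    unfold row
    rw [conj_walk C hC]
    have : (starRingEnd ℂ) (Complex.I * (t : ℂ)) = -(Complex.I * (t : ℂ)) := by simp
    rw [this, walk_neg_of_coloring C f hf]
    split_ifs <;> simp
  have hwconj : (starRingEnd ℂ) w = w ∨ (starRingEnd ℂ) w = - w := by
    rw [hw, map_mul, Complex.conj_ofReal]
    rcases hconj with h1 | h1
    · left; rw [h1]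
    · right; rw [h1]; ring
  have hnorm : w * (starRingEnd ℂ) w = 1 := by
    have h2 : ‖w‖ ^ 2 = 1 := by
      rw [hw, norm_mul, mul_pow, h b]
      have := card_pos (G := G)
      simp [Real.sq_sqrt, this.ne']
    rw [Complex.mul_conj, Complex.normSq_eq_norm_sq, h2]; simp
  have hsq : w ^ 2 = 1 ∨ w ^ 2 = -1 := by
    rcases hwconj with h1 | h1
    · left; rw [h1] at hnorm; rw [pow_two]; exact hnorm
    · right; rw [h1] at hnorm
      linear_combination -hnorm
  rcases hsq with h1 | h1
  · calc w ^ 4 = (w ^ 2) ^ 2 := by ring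
      _ = 1 := by rw [h1]; ring
  · calc w ^ 4 = (w ^ 2) ^ 2 := by ring
      _ = 1 := by rw [h1]; ring

/-- integers with `x²+y²=n`, no prime factor of `n` being `1 mod 4` -/
lemma gauss_pow_eight (n : ℕ) (hn : 0 < n) (hp : ∀ p : ℕ, p.Prime → p ∣ n → p % 4 ≠ 1) :
    ∀ x y : ℤ, x ^ 2 + y ^ 2 = n → ((x : ℂ) + y * Complex.I) ^ 8 = (n : ℂ) ^ 4 := by
  induction n using Nat.strong_induction_on with
  | _ n ih =>
    intro x y hxy
    by_cases h1 : n = 1
    · subst h1
      push_cast at hxy
      have hx : x ^ 2 ≤ 1 := by nlinarith [sq_nonneg y]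
      have hy : y ^ 2 ≤ 1 := by nlinarith [sq_nonneg x]
      have hx1 : -1 ≤ x ∧ x ≤ 1 := by constructor <;> nlinarith
      have hy1 : -1 ≤ y ∧ y ≤ 1 := by constructor <;> nlinarith
      obtain ⟨hx1, hx2⟩ := hx1
      obtain ⟨hy1, hy2⟩ := hy1
      have hI8 : (Complex.I : ℂ) ^ 8 = 1 := by
        rw [show (8 : ℕ) = 4 * 2 by norm_num, pow_mul, Complex.I_pow_four]; simp
      interval_cases x <;> interval_cases y <;> simp at hxy <;>
        simp [hI8, Even.neg_pow (show Even 8 by decide)]
    · have hmf := Nat.minFac_prime h1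
      have hdvd := Nat.minFac_dvd n
      have hmod := hp _ hmf hdvd
      by_cases h2 : n.minFac = 2
      · rw [h2] at hdvd
        obtain ⟨m, hm⟩ := hdvd
        have hmpos : 0 < m := by omega
        have hpar : (x + y) % 2 = 0 := by
          have h3 : (x ^ 2 + y ^ 2) % 2 = 0 := by rw [hxy, hm]; push_cast; omega
          rcases Int.emod_two_eq_zero_or_one x with hx | hx <;>
            rcases Int.emod_two_eq_zero_or_one y with hy | hy <;>
            simp [Int.add_emod, pow_two, Int.mul_emod, hx, hy] at h3 ⊢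
        obtain ⟨u, hu⟩ : (2 : ℤ) ∣ x + y := Int.dvd_of_emod_eq_zero hpar
        have hv : y - x = 2 * (y - u) := by linarith
        have hx' : x = u - (y - u) := by linarith
        have hy' : y = u + (y - u) := by linarith
        set v := y - u with hvdef
        have huv : u ^ 2 + v ^ 2 = (m : ℕ) := by
          have : (u - v) ^ 2 + (u + v) ^ 2 = 2 * (m : ℤ) := by
            rw [← hx', ← hy', hxy, hm]; push_cast; ring
          nlinarith
        have ih' := ih m (by omega) hmpos (fun p hp1 hp2 => hp p hp1 (by rw [hm]; exact hp2.mul_left 2))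
          u v huv
        have hfac : (x : ℂ) + y * Complex.I = (1 + Complex.I) * ((u : ℂ) + v * Complex.I) := by
          have hx2 : (x : ℂ) = (u : ℂ) - v := by exact_mod_cast hx'
          have hy2 : (y : ℂ) = (u : ℂ) + v := by exact_mod_cast hy'
          rw [hx2, hy2]
          linear_combination (-(v : ℂ)) * Complex.I_sq
        have h18 : (1 + Complex.I) ^ 8 = 16 := by
          have h2 : (1 + Complex.I) ^ 2 = 2 * Complex.I := by
            linear_combination Complex.I_sq
          calc (1 + Complex.I) ^ 8 = ((1 + Complex.I) ^ 2) ^ 4 := by ring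
            _ = 16 * Complex.I ^ 4 := by rw [h2]; ring
            _ = 16 := by rw [Complex.I_pow_four]; ring
        rw [hfac, mul_pow, h18, ih', hm]
        push_cast; ring
      · have h3 : n.minFac % 4 = 3 := by
          have hodd : n.minFac % 2 = 1 := (hmf.eq_two_or_odd).resolve_left h2
          omega
        set p := n.minFac with hpdef
        have : Fact p.Prime := ⟨hmf⟩
        have hz : (((x ^ 2 + y ^ 2 : ℤ)) : ZMod p) = 0 := by
          rw [hxy]; push_cast
          exact (ZMod.natCast_eq_zero_iff n p).2 hdvd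
        push_cast at hz
        have hy0 : (y : ZMod p) = 0 := by
          by_contra hy
          exact ZMod.mod_four_ne_three_of_sq_eq_neg_sq' hy
            (by linear_combination hz : (x : ZMod p) ^ 2 = -(y : ZMod p) ^ 2) h3
        have hx0 : (x : ZMod p) = 0 := by
          rw [hy0] at hz
          have : (x : ZMod p) ^ 2 = 0 := by linear_combination hz
          exact pow_eq_zero_iff (two_ne_zero) |>.1 this
        obtain ⟨x', hx'⟩ := (ZMod.intCast_zmod_eq_zero_iff_dvd x p).1 hx0
        obtain ⟨y', hy'⟩ := (ZMod.intCast_zmod_eq_zero_iff_dvd y p).1 hy0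
        have hpp : (p : ℤ) ^ 2 * (x' ^ 2 + y' ^ 2) = n := by
          rw [← hxy, hx', hy']; ring
        obtain ⟨m, hm⟩ : ∃ m : ℕ, (m : ℤ) = x' ^ 2 + y' ^ 2 :=
          ⟨(x' ^ 2 + y' ^ 2).toNat, Int.toNat_of_nonneg (by positivity)⟩
        have hnm : n = p ^ 2 * m := by
          have : ((p ^ 2 * m : ℕ) : ℤ) = n := by push_cast; rw [hm]; exact hpp
          exact_mod_cast this.symm
        have hmpos : 0 < m := by
          rcases Nat.eq_zero_or_pos m with h | h
          · rw [h] at hnm; omega
          · exact h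
        have hlt : m < n := by
          rw [hnm]
          have : 1 < p ^ 2 := by
            have := hmf.one_lt
            nlinarith
          nlinarith
        have ih' := ih m hlt hmpos (fun r hr1 hr2 => hp r hr1 (by rw [hnm]; exact hr2.mul_left _))
          x' y' hm.symm
        have hfac : (x : ℂ) + y * Complex.I = (p : ℂ) * ((x' : ℂ) + y' * Complex.I) := by
          rw [hx', hy']; push_cast; ring
        rw [hfac, mul_pow, ih', hnm]
        push_cast; ring

/-- **Part (III)**: bipartite Cayley graphs, no prime `≡ 1 mod 4` dividing the order. -/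
theorem partBip {C : Finset G} (hC : ∀ c ∈ C, -c ∈ C) (f : G → Bool)
    (hf : ∀ a b : G, b - a ∈ C → f a ≠ f b) {t : ℝ} (h : Flat C t)
    (hp : ∀ p : ℕ, p.Prime → p ∣ Fintype.card G → p % 4 ≠ 1) :
    ∃ j : ℤ, 4 * C.card * t = j * Real.pi := by
  classical
  -- each scaled entry is a Gaussian unit
  have hunit : ∀ b : G, ∃ x y : ℤ, (Real.sqrt (Fintype.card G) : ℂ) * row C t b
      = (x : ℂ) + y * Complex.I := by
    intro b
    have h4 := bip_pow_four hC f hf h b
    set w := (Real.sqrt (Fintype.card G) : ℂ) * row C t b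
    have hfac : (w - 1) * (w + 1) * ((w - Complex.I) * (w + Complex.I)) = 0 := by
      linear_combination h4 + (1 - w ^ 2) * Complex.I_sq
    rcases mul_eq_zero.1 hfac with h5 | h5
    · rcases mul_eq_zero.1 h5 with h6 | h6
      · exact ⟨1, 0, by push_cast; linear_combination h6⟩
      · exact ⟨-1, 0, by push_cast; linear_combination h6⟩
    · rcases mul_eq_zero.1 h5 with h6 | h6
      · exact ⟨0, 1, by push_cast; linear_combination h6⟩
      · exact ⟨0, -1, by push_cast; linear_combination h6⟩
  choose x y hxy using hunit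
  have hsum : (Real.sqrt (Fintype.card G) : ℂ) * ph C t 0
      = ((∑ b, x b : ℤ) : ℂ) + ((∑ b, y b : ℤ) : ℂ) * Complex.I := by
    rw [ph_eq, Finset.mul_sum]
    push_cast
    rw [Finset.sum_mul, ← Finset.sum_add_distrib]
    refine Finset.sum_congr rfl fun b _ => ?_
    rw [← hxy b]; simp
  have hsq : ((Real.sqrt (Fintype.card G) : ℝ) : ℂ) ^ 2 = Fintype.card G := by
    rw [← Complex.ofReal_pow, Real.sq_sqrt (by positivity)]; simp
  have hnorm : ((∑ b, x b) ^ 2 + (∑ b, y b) ^ 2 : ℤ) = Fintype.card G := by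
    have h1 : ‖(Real.sqrt (Fintype.card G) : ℂ) * ph C t 0‖ ^ 2 = (Fintype.card G : ℝ) := by
      rw [norm_mul, norm_ph C hC, mul_one]; simp [Real.sq_sqrt]
    rw [hsum, ← Complex.normSq_eq_norm_sq] at h1
    have h2 : Complex.normSq (((∑ b, x b : ℤ) : ℂ) + ((∑ b, y b : ℤ) : ℂ) * Complex.I)
        = ((∑ b, x b : ℤ) : ℝ) ^ 2 + ((∑ b, y b : ℤ) : ℝ) ^ 2 := by
      have := Complex.normSq_add_mul_I ((∑ b, x b : ℤ) : ℝ) ((∑ b, y b : ℤ) : ℝ)
      simpa using this
    rw [h2] at h1
    exact_mod_cast h1
  have h8 := gauss_pow_eight (Fintype.card G) Fintype.card_pos hp _ _ hnorm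
  rw [← hsum, mul_pow, show (8 : ℕ) = 2 * 4 by norm_num, pow_mul, hsq] at h8
  have hn : (Fintype.card G : ℂ) ≠ 0 := by
    have := card_pos (G := G)
    exact_mod_cast this.ne'
  have h9 : ph C t 0 ^ (2 * 4) = 1 :=
    mul_left_cancel₀ (pow_ne_zero 4 hn) (by rw [h8, mul_one])
  unfold ph at h9
  rw [lam_zero, ← Complex.exp_nat_mul, Complex.exp_eq_one_iff] at h9
  obtain ⟨j, hj⟩ := h9
  refine ⟨j, ?_⟩
  have h10 : Complex.I * ((4 : ℂ) * C.card * t) = Complex.I * (j * Real.pi) := by
    have : (2 : ℂ) ≠ 0 := two_ne_zero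
    apply mul_left_cancel₀ this
    calc 2 * (Complex.I * ((4 : ℂ) * C.card * t))
        = ((2 * 4 : ℕ) : ℂ) * (Complex.I * (t : ℂ) * C.card) := by push_cast; ring
      _ = j * (2 * Real.pi * Complex.I) := hj
      _ = 2 * (Complex.I * (j * Real.pi)) := by ring
  have h11 := mul_left_cancel₀ Complex.I_ne_zero h10
  exact_mod_cast h11

end Pool.Agent.Lib_helper58.CayleyUM
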