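import Mathlib
import Pool.Agent.Lib_helper58.CayleyUM2

/-!
# Integral Cayley graphs: Butson-type mixing happens only at rational multiples of `π`
-/

set_option autoImplicit false

open Matrix Complex Polynomial

namespace Pool.Agent.Lib_helper58.CayleyUM

variable {G : Type*} [AddCommGroup G] [Fintype G] [DecidableEq G]

/-- Parseval for an injective family of characters -/
lemma parseval {ι : Type*} [Fintype ι] [DecidableEq ι] (g : ι → AddChar G ℂ)
    (hg : Function.Injective g) (c : ι → ℂ) :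
    ∑ b : G, ‖∑ i, c i * g i b‖ ^ 2 = (Fintype.card G : ℝ) * ∑ i, ‖c i‖ ^ 2 := by
  have h1 : ((∑ b : G, ‖∑ i, c i * g i b‖ ^ 2 : ℝ) : ℂ)
      = (((Fintype.card G : ℝ) * ∑ i, ‖c i‖ ^ 2 : ℝ) : ℂ) := by
    push_cast
    have h2 : ∀ b : G, ((‖∑ i, c i * g i b‖ : ℝ) : ℂ) ^ 2
        = ∑ i, ∑ j, c i * (starRingEnd ℂ) (c j) * (g i - g j) b := by
      intro b
      rw [← Complex.ofReal_pow, ← Complex.normSq_eq_norm_sq, ← Complex.mul_conj, map_sum,
        Finset.sum_mul_sum]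
      refine Finset.sum_congr rfl fun i _ => Finset.sum_congr rfl fun j _ => ?_
      rw [map_mul, conj_char, AddChar.sub_apply]
      ring
    rw [Finset.sum_congr rfl (fun b _ => h2 b), Finset.sum_comm]
    have h3 : ∀ i : ι, ∑ b : G, ∑ j, c i * (starRingEnd ℂ) (c j) * (g i - g j) b
        = (Fintype.card G : ℂ) * ((‖c i‖ : ℝ) : ℂ) ^ 2 := by
      intro i
      rw [Finset.sum_comm]
      have h4 : ∀ j : ι, ∑ b : G, c i * (starRingEnd ℂ) (c j) * (g i - g j) b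
          = if j = i then (Fintype.card G : ℂ) * ((‖c i‖ : ℝ) : ℂ) ^ 2 else 0 := by
        intro j
        rw [← Finset.mul_sum]
        by_cases hij : j = i
        · subst hij
          rw [if_pos rfl, sub_self]
          have : ∑ b : G, (0 : AddChar G ℂ) b = Fintype.card G := by simp
          rw [this, Complex.mul_conj, Complex.normSq_eq_norm_sq]
          push_cast; ring
        · rw [if_neg hij, AddChar.sum_eq_zero_iff_ne_zero.2, mul_zero]
          intro h; exact hij (hg (sub_eq_zero.1 h)).symm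
      rw [Finset.sum_congr rfl (fun j _ => h4 j)]
      simp
    rw [Finset.sum_congr rfl (fun i _ => h3 i), ← Finset.mul_sum]
  exact_mod_cast h1

/-- the exponential inequality -/
lemma exp_ineq {ι : Type*} [Fintype ι] (l : ι → ℝ) (hl : ∑ i, l i = 0) (i₀ : ι) (hi₀ : l i₀ ≠ 0)
    (x : ℝ) (h : (∑ i, Real.exp (x * l i)) * (∑ i, Real.exp (-(x * l i))) = (Fintype.card ι : ℝ) ^ 2) :
    x = 0 := by
  by_contra hx
  have h1 : (Fintype.card ι : ℝ) < ∑ i, Real.exp (x * l i) := by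
    have : (Fintype.card ι : ℝ) = ∑ i, (x * l i + 1) := by
      rw [Finset.sum_add_distrib, ← Finset.mul_sum, hl]; simp
    rw [this]
    apply Finset.sum_lt_sum
    · intro i _; exact Real.add_one_le_exp _
    · exact ⟨i₀, Finset.mem_univ _, Real.add_one_lt_exp (mul_ne_zero hx hi₀)⟩
  have h2 : (Fintype.card ι : ℝ) ≤ ∑ i, Real.exp (-(x * l i)) := by
    have : (Fintype.card ι : ℝ) = ∑ i, (-(x * l i) + 1) := by
      rw [Finset.sum_add_distrib, Finset.sum_neg_distrib, ← Finset.mul_sum, hl]; simp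
    rw [this]
    apply Finset.sum_le_sum
    intro i _; exact Real.add_one_le_exp _
  have hpos : (0 : ℝ) < Fintype.card ι := by
    have : 0 < Fintype.card ι := Fintype.card_pos_iff.2 ⟨i₀⟩
    exact_mod_cast this
  nlinarith

lemma ph_zpow {C : Finset G} {t : ℝ} {ℓ : AddChar G ℂ → ℤ} (hℓ : ∀ ψ, lam C ψ = ℓ ψ)
    (ψ : AddChar G ℂ) : ph C t ψ = Complex.exp (Complex.I * t) ^ (ℓ ψ) := by
  unfold ph
  rw [hℓ, ← Complex.exp_int_mul]; congr 1; ring

lemma norm_z (t : ℝ) : ‖Complex.exp (Complex.I * t)‖ = 1 := by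
  rw [mul_comm]; exact Complex.norm_exp_ofReal_mul_I t

lemma conj_z_zpow (t : ℝ) (m : ℤ) : (starRingEnd ℂ) (Complex.exp (Complex.I * t) ^ m)
    = Complex.exp (Complex.I * t) ^ (-m) := by
  rw [map_zpow₀, _root_.zpow_neg, ← _root_.inv_zpow]
  congr 1
  rw [Complex.inv_def, Complex.normSq_eq_norm_sq, norm_z]; simp

lemma autocorr_int {C : Finset G} {t : ℝ} (h : Flat C t) {ℓ : AddChar G ℂ → ℤ}
    (hℓ : ∀ ψ, lam C ψ = ℓ ψ) (η : AddChar G ℂ) (hη : η ≠ 0) :
    ∑ ψ : AddChar G ℂ, Complex.exp (Complex.I * t) ^ (ℓ ψ - ℓ (ψ + η)) = 0 := by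
  rw [← autocorr h η hη]
  refine Finset.sum_congr rfl fun ψ _ => ?_
  rw [ph_zpow hℓ, ph_zpow hℓ, conj_z_zpow, ← zpow_add₀ (Complex.exp_ne_zero _)]
  rfl

lemma ell_le {C : Finset G} {ℓ : AddChar G ℂ → ℤ}
    (hℓ : ∀ ψ, lam C ψ = ℓ ψ) (ψ : AddChar G ℂ) : ℓ ψ ≤ ℓ 0 := by
  have h0 : (ℓ 0 : ℂ) = C.card := by rw [← hℓ, lam_zero]
  have h0' : ℓ 0 = C.card := by exact_mod_cast h0
  have h1 : ‖(ℓ ψ : ℂ)‖ ≤ C.card := by
    rw [← hℓ]; unfold lam
    refine (norm_sum_le _ _).trans ?_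
    simp [norm_char]
  rw [Complex.norm_intCast] at h1
  have h2 : (ℓ ψ : ℝ) ≤ C.card := (le_abs_self _).trans h1
  rw [h0']
  exact_mod_cast h2

lemma ell_lt {C : Finset G} {t : ℝ} (h : Flat C t) {ℓ : AddChar G ℂ → ℤ}
    (hℓ : ∀ ψ, lam C ψ = ℓ ψ) (ψ : AddChar G ℂ) (hψ : ψ ≠ 0) : ℓ ψ < ℓ 0 := by
  refine lt_of_le_of_ne (ell_le hℓ ψ) ?_
  intro heq
  -- then every `ψ c = 1`
  have h0 : (ℓ 0 : ℂ) = C.card := by rw [← hℓ, lam_zero]
  have h1 : ∑ c ∈ C, (1 - (ψ c).re) = 0 := by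
    have h2 : (lam C ψ).re = C.card := by
      rw [hℓ, heq, h0]; simp
    unfold lam at h2
    rw [Complex.re_sum] at h2
    rw [Finset.sum_sub_distrib, h2]; simp
  have h3 : ∀ c ∈ C, 1 - (ψ c).re = 0 := by
    rw [Finset.sum_eq_zero_iff_of_nonneg] at h1
    · exact h1
    · intro c _
      have := Complex.re_le_norm (ψ c)
      rw [norm_char] at this
      linarith
  have h4 : ∀ c ∈ C, ψ c = 1 := by
    intro c hc
    have h5 : (ψ c).re = 1 := by linarith [h3 c hc]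
    have h6 : Complex.normSq (ψ c) = 1 := by
      rw [Complex.normSq_eq_norm_sq, norm_char]; simp
    rw [Complex.normSq_apply, h5] at h6
    have h7 : (ψ c).im = 0 := by nlinarith
    exact Complex.ext (by simpa using h5) (by simpa using h7)
  have h8 : ∀ φ : AddChar G ℂ, ℓ (φ + ψ) = ℓ φ := by
    intro φ
    have : (ℓ (φ + ψ) : ℂ) = ℓ φ := by
      rw [← hℓ, ← hℓ]; unfold lam
      refine Finset.sum_congr rfl fun c hc => ?_
      rw [AddChar.add_apply, h4 c hc, mul_one]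
    exact_mod_cast this
  have h9 := autocorr_int h hℓ ψ hψ
  simp only [h8, sub_self, zpow_zero] at h9
  simp at h9

/-- in the integral case `e^{it}` is an algebraic integer -/
lemma z_integral {C : Finset G} {t : ℝ} (h : Flat C t) {ℓ : AddChar G ℂ → ℤ}
    (hℓ : ∀ ψ, lam C ψ = ℓ ψ) (hG : 1 < Fintype.card G) :
    IsIntegral ℤ (Complex.exp (Complex.I * t)) := by
  classical
  obtain ⟨η, hη⟩ := Finite.exists_min ℓ
  have hcard : Fintype.card (AddChar G ℂ) = Fintype.card G := AddChar.card_eq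
  have hη0 : η ≠ 0 := by
    rintro rfl
    have : 1 < Fintype.card (AddChar G ℂ) := by rw [hcard]; exact hG
    obtain ⟨ψ, hψ⟩ := Fintype.exists_ne_of_one_lt_card this 0
    have h1 := ell_lt h hℓ ψ hψ
    have h2 := hη ψ
    omega
  have hlt : ℓ η < ℓ 0 := ell_lt h hℓ η hη0
  set D : ℕ := (ℓ 0 - ℓ η).toNat with hD
  have hDz : (D : ℤ) = ℓ 0 - ℓ η := Int.toNat_of_nonneg (by omega)
  let e : AddChar G ℂ → ℕ := fun ψ => (ℓ ψ - ℓ (ψ + η) + D).toNat
  have he : ∀ ψ, (e ψ : ℤ) = ℓ ψ - ℓ (ψ + η) + D := by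
    intro ψ
    apply Int.toNat_of_nonneg
    have h1 := hη ψ
    have h2 := ell_le hℓ (ψ + η)
    omega
  have he0 : e 0 = 2 * D := by
    have := he 0
    rw [zero_add] at this
    omega
  have helt : ∀ ψ, ψ ≠ 0 → e ψ < 2 * D := by
    intro ψ hψ
    have h1 := he ψ
    have h2 := ell_lt h hℓ ψ hψ
    have h3 := hη (ψ + η)
    omega
  set z := Complex.exp (Complex.I * t) with hz
  have hz0 : z ≠ 0 := Complex.exp_ne_zero _
  let f : ℤ[X] := X ^ (2 * D) + ∑ ψ ∈ (Finset.univ.erase (0 : AddChar G ℂ)), X ^ (e ψ)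
  have hmonic : f.Monic := by
    apply monic_X_pow_add
    have hDpos : 0 < 2 * D := by omega
    refine lt_of_le_of_lt (degree_sum_le _ _) ?_
    rw [Finset.sup_lt_iff (by exact_mod_cast WithBot.bot_lt_coe _)]
    intro ψ hψ
    rw [degree_X_pow]
    exact_mod_cast helt ψ (Finset.ne_of_mem_erase hψ)
  refine ⟨f, hmonic, ?_⟩
  have h1 : eval₂ (algebraMap ℤ ℂ) z f = ∑ ψ : AddChar G ℂ, z ^ (e ψ) := by
    rw [← Finset.add_sum_erase _ _ (Finset.mem_univ (0 : AddChar G ℂ)), he0]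
    simp [f, eval₂_add, eval₂_finsetSum]
  rw [h1]
  have h2 : ∀ ψ : AddChar G ℂ, z ^ (e ψ) = z ^ (ℓ ψ - ℓ (ψ + η)) * z ^ (D : ℤ) := by
    intro ψ
    rw [← zpow_add₀ hz0, ← he, zpow_natCast]
  rw [Finset.sum_congr rfl (fun ψ _ => h2 ψ), ← Finset.sum_mul, autocorr_int h hℓ η hη0, zero_mul]

/-- push a character through a field embedding -/
noncomputable def pushChar (K : IntermediateField ℚ ℂ) (φ : K →+* ℂ)
    (hK : ∀ (ψ : AddChar G ℂ) (b : G), ψ b ∈ K) (ψ : AddChar G ℂ) : AddChar G ℂ where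
  toFun b := φ ⟨ψ b, hK ψ b⟩
  map_zero_eq_one' := by
    have : (⟨ψ 0, hK ψ 0⟩ : K) = 1 := Subtype.ext (by simp)
    rw [this, map_one]
  map_add_eq_mul' a b := by
    rw [← map_mul]; congr 1
    exact Subtype.ext (by simp [AddChar.map_add_eq_mul])

lemma pushChar_injective (K : IntermediateField ℚ ℂ) (φ : K →+* ℂ)
    (hK : ∀ (ψ : AddChar G ℂ) (b : G), ψ b ∈ K) :
    Function.Injective (pushChar K φ hK) := by
  intro ψ χ h
  ext b
  have h1 : φ ⟨ψ b, hK ψ b⟩ = φ ⟨χ b, hK χ b⟩ := DFunLike.congr_fun h b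
  exact congrArg Subtype.val (φ.injective h1)

/-- **Part (A)**: integral Cayley graphs with Butson-type mixing. -/
theorem partA {C : Finset G} (h0 : (0 : G) ∉ C) (hne : C.Nonempty)
    {t : ℝ} (h : Flat C t) (hint : ∀ ψ : AddChar G ℂ, ∃ m : ℤ, lam C ψ = m)
    (N : ℕ) (hN : 0 < N) (hB : ∀ b, row C t b ^ N = row C t 0 ^ N) :
    ∃ r : ℚ, t = (r : ℝ) * Real.pi := by
  classical
  choose ℓ hℓ using hint
  have hG : 1 < Fintype.card G := by
    obtain ⟨c, hc⟩ := hne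
    rw [Fintype.one_lt_card_iff]
    exact ⟨c, 0, fun hc0 => h0 (hc0 ▸ hc)⟩
  have hcardeq : Fintype.card (AddChar G ℂ) = Fintype.card G := AddChar.card_eq
  have hnC : (Fintype.card G : ℂ) ≠ 0 := by
    have := card_pos (G := G)
    exact_mod_cast this.ne'
  set z := Complex.exp (Complex.I * t) with hz
  have hz0 : z ≠ 0 := Complex.exp_ne_zero _
  have hzint : IsIntegral ℤ z := z_integral h hℓ hG
  -- the field
  set L : ℕ := N * Fintype.card G with hL
  have hLpos : 0 < L := Nat.mul_pos hN Fintype.card_pos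
  set ζ := Complex.exp (2 * Real.pi * Complex.I / L) with hζdef
  have hζ : IsPrimitiveRoot ζ L := Complex.isPrimitiveRoot_exp L hLpos.ne'
  let K : IntermediateField ℚ ℂ := IntermediateField.adjoin ℚ {z, ζ}
  have hfin : FiniteDimensional ℚ K := by
    apply IntermediateField.finiteDimensional_adjoin
    intro x hx
    rcases hx with rfl | hx
    · exact hzint.tower_top
    · rw [Set.mem_singleton_iff] at hx
      subst hx
      exact (hζ.isIntegral hLpos).tower_top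
  have hnf : NumberField K := { to_charZero := inferInstance, to_finiteDimensional := hfin }
  have hzK : z ∈ K := IntermediateField.subset_adjoin ℚ _ (by simp)
  have hζK : ζ ∈ K := IntermediateField.subset_adjoin ℚ _ (by simp)
  have hroot : ∀ w : ℂ, w ^ L = 1 → w ∈ K := by
    intro w hw
    have : NeZero L := ⟨hLpos.ne'⟩
    obtain ⟨i, _, hi⟩ := hζ.eq_pow_of_pow_eq_one hw
    rw [← hi]; exact pow_mem hζK i
  have hcK : ∀ (ψ : AddChar G ℂ) (b : G), ψ b ∈ K := by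
    intro ψ b
    apply hroot
    rw [hL, mul_comm, pow_mul, char_pow_card, one_pow]
  have hu0 := row_ne_zero h 0
  have hρN : ∀ b, (row C t b / row C t 0) ^ N = 1 := by
    intro b
    rw [div_pow, hB b, div_self (pow_ne_zero _ hu0)]
  have hρK : ∀ b, row C t b / row C t 0 ∈ K := by
    intro b
    apply hroot
    rw [hL, pow_mul, hρN, one_pow]
  -- it suffices that all conjugates of `z` are unimodular
  suffices hmain : ∀ φ : K →+* ℂ, ‖φ ⟨z, hzK⟩‖ = 1 by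
    have hzintK : IsIntegral ℤ (⟨z, hzK⟩ : K) := by
      rw [← isIntegral_algebraMap_iff (algebraMap K ℂ).injective]
      exact hzint
    obtain ⟨M, hM, hM1⟩ := NumberField.Embeddings.pow_eq_one_of_norm_eq_one K ℂ hzintK hmain
    have h1 : z ^ M = 1 := by simpa using congrArg (fun x : K => (x : ℂ)) hM1
    apply rat_of_exp hM
    rw [← h1, hz, ← Complex.exp_nat_mul]; congr 1; ring
  intro φ
  set z' := φ ⟨z, hzK⟩ with hz'
  have hz'0 : z' ≠ 0 := by
    intro h1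
    have : (⟨z, hzK⟩ : K) = 0 := φ.injective (by rw [← hz', h1, map_zero])
    exact hz0 (congrArg Subtype.val this)
  let ψ' := pushChar K φ hcK
  have hψinj : Function.Injective ψ' := pushChar_injective K φ hcK
  -- the scaled row and its conjugate as elements of `K`
  let zK : K := ⟨z, hzK⟩
  let T : G → K := fun b => ∑ ψ : AddChar G ℂ, zK ^ (ℓ ψ) * ⟨ψ (-b), hcK ψ (-b)⟩
  let S : G → K := fun b => ∑ ψ : AddChar G ℂ, zK ^ (-ℓ ψ) * ⟨ψ b, hcK ψ b⟩
  let ρ : G → K := fun b => ⟨row C t b / row C t 0, hρK b⟩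
  have hTval : ∀ b, ((T b : K) : ℂ) = (Fintype.card G : ℂ) * row C t b := by
    intro b
    rw [row_eq]
    have h1 : ((T b : K) : ℂ) = ∑ ψ : AddChar G ℂ, z ^ (ℓ ψ) * ψ (-b) := by
      show (algebraMap K ℂ) (T b) = _
      simp only [T, map_sum, map_mul, map_zpow₀]
      rfl
    rw [h1]
    refine Finset.sum_congr rfl fun ψ _ => ?_
    rw [ph_zpow hℓ]
  have hSval : ∀ b, ((S b : K) : ℂ) = (starRingEnd ℂ) ((T b : K) : ℂ) := by
    intro b
    rw [hTval, row_eq, map_sum]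
    have h1 : ((S b : K) : ℂ) = ∑ ψ : AddChar G ℂ, z ^ (-ℓ ψ) * ψ b := by
      show (algebraMap K ℂ) (S b) = _
      simp only [S, map_sum, map_mul, map_zpow₀]
      rfl
    rw [h1]
    refine Finset.sum_congr rfl fun ψ _ => ?_
    rw [ph_zpow hℓ, map_mul, conj_z_zpow, conj_char, neg_neg]
  have hTρ : ∀ b, T b = ρ b * T 0 := by
    intro b
    apply Subtype.ext
    show ((T b : K) : ℂ) = (row C t b / row C t 0) * ((T 0 : K) : ℂ)
    rw [hTval, hTval]
    field_simp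
  have hTS : ∀ b, T b * S b = (Fintype.card G : K) := by
    intro b
    apply Subtype.ext
    show ((T b : K) : ℂ) * ((S b : K) : ℂ) = ((Fintype.card G : K) : ℂ)
    rw [hSval, Complex.mul_conj, Complex.normSq_eq_norm_sq, hTval, norm_mul, mul_pow, h b]
    have := card_pos (G := G)
    simp
    field_simp
  have hρnorm : ∀ b, ‖φ (ρ b)‖ = 1 := by
    intro b
    have h1 : (ρ b) ^ N = 1 := by
      apply Subtype.ext
      show ((ρ b : K) : ℂ) ^ N = 1
      exact hρN b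
    exact Complex.norm_eq_one_of_pow_eq_one (by rw [← map_pow, h1, map_one]) hN.ne'
  have hTnorm : ∀ b, ‖φ (T b)‖ = ‖φ (T 0)‖ := by
    intro b
    rw [hTρ b, map_mul, norm_mul, hρnorm, one_mul]
  have hT0 : ‖φ (T 0)‖ ≠ 0 := by
    rw [norm_ne_zero_iff]
    intro h1
    have h2 : T 0 = 0 := φ.injective (by rw [h1, map_zero])
    have h3 := hTS 0
    rw [h2, zero_mul] at h3
    exact hnC (by simpa using (congrArg (fun x : K => (x : ℂ)) h3).symm)
  have hTSn : ∀ b, ‖φ (T b)‖ * ‖φ (S b)‖ = Fintype.card G := by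
    intro b
    rw [← norm_mul, ← map_mul, hTS]; simp
  have hSnorm : ∀ b, ‖φ (S b)‖ = ‖φ (S 0)‖ := by
    intro b
    have h1 := hTSn b
    have h2 := hTSn 0
    rw [hTnorm b] at h1
    exact mul_left_cancel₀ hT0 (h1.trans h2.symm)
  have hφT : ∀ b, φ (T b) = ∑ ψ : AddChar G ℂ, z' ^ (ℓ ψ) * ψ' ψ (-b) := by
    intro b
    simp only [T, map_sum, map_mul, map_zpow₀]
    rfl
  have hφS : ∀ b, φ (S b) = ∑ ψ : AddChar G ℂ, z' ^ (-ℓ ψ) * ψ' ψ b := by
    intro b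
    simp only [S, map_sum, map_mul, map_zpow₀]
    rfl
  have hP1 : ‖φ (T 0)‖ ^ 2 = ∑ ψ : AddChar G ℂ, ‖z' ^ (ℓ ψ)‖ ^ 2 := by
    have h1 := parseval ψ' hψinj (fun ψ => z' ^ (ℓ ψ))
    have h2 : ∑ b : G, ‖∑ ψ : AddChar G ℂ, z' ^ (ℓ ψ) * ψ' ψ b‖ ^ 2
        = (Fintype.card G : ℝ) * ‖φ (T 0)‖ ^ 2 := by
      have h3 : ∀ b : G, ‖∑ ψ : AddChar G ℂ, z' ^ (ℓ ψ) * ψ' ψ b‖ ^ 2 = ‖φ (T 0)‖ ^ 2 := by
        intro b
        have := hφT (-b)
        rw [neg_neg] at this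
        rw [← this, hTnorm]
      rw [Finset.sum_congr rfl (fun b _ => h3 b)]; simp
    rw [h2] at h1
    exact mul_left_cancel₀ (card_pos (G := G)).ne' h1
  have hP2 : ‖φ (S 0)‖ ^ 2 = ∑ ψ : AddChar G ℂ, ‖z' ^ (-ℓ ψ)‖ ^ 2 := by
    have h1 := parseval ψ' hψinj (fun ψ => z' ^ (-ℓ ψ))
    have h2 : ∑ b : G, ‖∑ ψ : AddChar G ℂ, z' ^ (-ℓ ψ) * ψ' ψ b‖ ^ 2
        = (Fintype.card G : ℝ) * ‖φ (S 0)‖ ^ 2 := by
      have h3 : ∀ b : G, ‖∑ ψ : AddChar G ℂ, z' ^ (-ℓ ψ) * ψ' ψ b‖ ^ 2 = ‖φ (S 0)‖ ^ 2 := by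
        intro b
        rw [← hφS, hSnorm]
      rw [Finset.sum_congr rfl (fun b _ => h3 b)]; simp
    rw [h2] at h1
    exact mul_left_cancel₀ (card_pos (G := G)).ne' h1
  have hnz : 0 < ‖z'‖ := norm_pos_iff.2 hz'0
  set x := 2 * Real.log ‖z'‖ with hx
  have hexp : ∀ m : ℤ, ‖z' ^ m‖ ^ 2 = Real.exp (x * m) := by
    intro m
    have h1 : ‖z' ^ m‖ = Real.exp (Real.log ‖z'‖ * m) := by
      rw [norm_zpow, ← Real.rpow_intCast, Real.rpow_def_of_pos hnz]
    rw [h1, ← Real.exp_nat_mul]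
    congr 1
    push_cast
    rw [hx]; ring
  have hsumℓ : ∑ ψ : AddChar G ℂ, (ℓ ψ : ℝ) = 0 := by
    have h1 := sum_lam C h0
    simp only [hℓ] at h1
    exact_mod_cast h1
  have hℓ0 : (ℓ 0 : ℝ) ≠ 0 := by
    have h1 : (ℓ 0 : ℂ) = C.card := by rw [← hℓ, lam_zero]
    have h2 : ℓ 0 = C.card := by exact_mod_cast h1
    rw [h2]
    have := Finset.card_pos.2 hne
    exact_mod_cast this.ne'
  have hprod : (∑ ψ : AddChar G ℂ, Real.exp (x * ℓ ψ)) * (∑ ψ : AddChar G ℂ, Real.exp (-(x * ℓ ψ)))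
      = (Fintype.card (AddChar G ℂ) : ℝ) ^ 2 := by
    have h1 : ∑ ψ : AddChar G ℂ, Real.exp (x * ℓ ψ) = ‖φ (T 0)‖ ^ 2 := by
      rw [hP1]; exact Finset.sum_congr rfl fun ψ _ => (hexp _).symm
    have h2 : ∑ ψ : AddChar G ℂ, Real.exp (-(x * ℓ ψ)) = ‖φ (S 0)‖ ^ 2 := by
      rw [hP2]
      refine Finset.sum_congr rfl fun ψ _ => ?_
      rw [hexp]; congr 1; push_cast; ring
    rw [h1, h2, ← mul_pow, hTSn, hcardeq]
  have hx0 := exp_ineq (fun ψ : AddChar G ℂ => (ℓ ψ : ℝ)) hsumℓ 0 hℓ0 x hprod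
  have hlog : Real.log ‖z'‖ = 0 := by
    rw [hx] at hx0; linarith
  rw [← Real.exp_log hnz, hlog, Real.exp_zero]

end Pool.Agent.Lib_helper58.CayleyUM
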